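import Pool.Agent.BE01.StmtsC

/-!
# Squad BE01, module EMB: the embedding of the space of gradients in `L^6`
-/

namespace Pool.Agent.BE01.H91

open Set Filter Topology MeasureTheory
open scoped InnerProductSpace ENNReal

noncomputable section

variable {d : ℕ}

/-- The space of the test functions. -/
def TT (Ω : Set (En d)) : Submodule ℝ (En d → ℝ) where
  carrier := {ψ | Tst Ω ψ}
  add_mem' := by
    rintro a b ⟨h1, h2, h3⟩ ⟨k1, k2, k3⟩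
    exact ⟨h1.add k1, h2.add k2, (tsupport_add a b).trans (union_subset h3 k3)⟩
  zero_mem' := by
    refine ⟨contDiff_const, HasCompactSupport.zero, ?_⟩
    have : tsupport (0 : En d → ℝ) = ∅ := by simp [tsupport]
    rw [this]
    exact empty_subset _
  smul_mem' := by
    rintro c a ⟨h1, h2, h3⟩
    refine ⟨h1.const_smul c, h2.smul_left, ?_⟩
    exact (tsupport_smul_subset_right (fun _ => c) a).trans h3

instance muc (Ω : Set (En d)) : IsFiniteMeasureOnCompacts (mu Ω) := by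
  unfold mu
  infer_instance

lemma mu_fin {Ω : Set (En d)} (h : Dom Ω) : IsFiniteMeasure (mu Ω) := by
  unfold mu
  exact ⟨by rw [Measure.restrict_apply_univ]; exact h.2.1.measure_lt_top⟩

lemma tst_memLp {Ω : Set (En d)} {ψ : En d → ℝ} (h : Tst Ω ψ) (p : ℝ≥0∞) :
    MemLp ψ p (mu Ω) :=
  h.1.continuous.memLp_of_hasCompactSupport h.2.1

lemma tst_diff {Ω : Set (En d)} {ψ : En d → ℝ} (h : Tst Ω ψ) (x : En d) :
    DifferentiableAt ℝ ψ x :=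
  (h.1.differentiable (by simp)).differentiableAt

lemma tst_grad_cont {Ω : Set (En d)} {ψ : En d → ℝ} (h : Tst Ω ψ) : Continuous (gradient ψ) := by
  have h1 : Continuous (fderiv ℝ ψ) := h.1.continuous_fderiv (by simp)
  exact (LinearIsometryEquiv.continuous _).comp h1

lemma tst_grad_supp {Ω : Set (En d)} {ψ : En d → ℝ} (h : Tst Ω ψ) :
    HasCompactSupport (gradient ψ) := by
  have h1 : HasCompactSupport (fderiv ℝ ψ) := h.2.1.fderiv ℝ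
  exact h1.comp_left (g := (InnerProductSpace.toDual ℝ (En d)).symm) (by simp)

lemma tst_grad_memLp {Ω : Set (En d)} {ψ : En d → ℝ} (h : Tst Ω ψ) (p : ℝ≥0∞) :
    MemLp (gradient ψ) p (mu Ω) :=
  (tst_grad_cont h).memLp_of_hasCompactSupport (tst_grad_supp h)

/-- The classes of the test functions. -/
def tl (Ω : Set (En d)) (p : ℝ≥0∞) : TT Ω →ₗ[ℝ] Lp ℝ p (mu Ω) where
  toFun ψ := (tst_memLp ψ.2 p).toLp ψ.1
  map_add' a b := by
    rw [← MemLp.toLp_add]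
    rfl
  map_smul' c a := by
    rw [RingHom.id_apply, ← MemLp.toLp_const_smul]
    rfl

/-- The gradients of the test functions. -/
def gr (Ω : Set (En d)) : TT Ω →ₗ[ℝ] Lp (En d) 2 (mu Ω) where
  toFun ψ := (tst_grad_memLp ψ.2 2).toLp (gradient ψ.1)
  map_add' a b := by
    rw [← MemLp.toLp_add]
    congr 1
    funext x
    show gradient (a.1 + b.1) x = gradient a.1 x + gradient b.1 x
    unfold gradient
    rw [fderiv_add (tst_diff a.2 x) (tst_diff b.2 x), map_add]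
  map_smul' c a := by
    rw [RingHom.id_apply, ← MemLp.toLp_const_smul]
    congr 1
    funext x
    show gradient (c • a.1) x = c • gradient a.1 x
    unfold gradient
    rw [fderiv_const_smul (tst_diff a.2 x), map_smul]

lemma tl_ae (Ω : Set (En d)) (p : ℝ≥0∞) (ψ : TT Ω) : tl Ω p ψ =ᵐ[mu Ω] ψ.1 :=
  MemLp.coeFn_toLp (tst_memLp ψ.2 p)

lemma gr_ae (Ω : Set (En d)) (ψ : TT Ω) : gr Ω ψ =ᵐ[mu Ω] gradient ψ.1 :=
  MemLp.coeFn_toLp (tst_grad_memLp ψ.2 2)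

lemma range_gr (Ω : Set (En d)) :
    {G : Lp (En d) 2 (mu Ω) | ∃ ψ, Tst Ω ψ ∧ G =ᵐ[mu Ω] gradient ψ} = LinearMap.range (gr Ω) := by
  ext G
  constructor
  · rintro ⟨ψ, h, hG⟩
    refine ⟨⟨ψ, h⟩, ?_⟩
    exact Lp.ext ((gr_ae Ω ⟨ψ, h⟩).trans hG.symm)
  · rintro ⟨ψ, rfl⟩
    exact ⟨ψ.1, ψ.2, gr_ae Ω ψ⟩

lemma VV_eq (Ω : Set (En d)) : VV Ω = (LinearMap.range (gr Ω)).topologicalClosure := by
  unfold VV
  rw [range_gr, Submodule.span_eq]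

/-- The gradients of the test functions, in `VV`. -/
def ge (Ω : Set (En d)) : TT Ω →ₗ[ℝ] VV Ω :=
  (gr Ω).codRestrict (VV Ω) fun ψ => by
    rw [VV_eq]
    exact Submodule.le_topologicalClosure _ (LinearMap.mem_range_self _ _)

lemma ge_coe (Ω : Set (En d)) (ψ : TT Ω) : ((ge Ω ψ : VV Ω) : Lp (En d) 2 (mu Ω)) = gr Ω ψ := rfl

lemma ge_dense (Ω : Set (En d)) : DenseRange (ge Ω) := by
  unfold DenseRange
  rw [Subtype.dense_iff]
  intro G hG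
  have h1 : G ∈ (LinearMap.range (gr Ω)).topologicalClosure := by
    rw [← VV_eq]
    exact hG
  have h2 : G ∈ closure ((LinearMap.range (gr Ω) : Submodule ℝ _) : Set (Lp (En d) 2 (mu Ω))) := h1
  refine closure_mono ?_ h2
  rintro _ ⟨ψ, rfl⟩
  exact ⟨ge Ω ψ, ⟨ψ, rfl⟩, rfl⟩

/-- The inclusion of `L^6` in `L^2`. -/
def j62 (μ : Measure (En d)) [IsFiniteMeasure μ] : Lp ℝ 6 μ →L[ℝ] Lp ℝ 2 μ :=
  LinearMap.mkContinuous
    { toFun := fun y => ((Lp.memLp y).mono_exponent (p := 2) (by norm_num)).toLp y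
      map_add' := by
        intro a b
        rw [← MemLp.toLp_add]
        refine MemLp.toLp_congr _ _ (Lp.coeFn_add a b)
      map_smul' := by
        intro c a
        rw [RingHom.id_apply, ← MemLp.toLp_const_smul]
        refine MemLp.toLp_congr _ _ (Lp.coeFn_smul c a) }
    ((μ univ) ^ (1 / (2 : ℝ≥0∞).toReal - 1 / (6 : ℝ≥0∞).toReal)).toReal (by
      intro y
      show ‖((Lp.memLp y).mono_exponent (p := 2) (by norm_num)).toLp y‖ ≤ _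
      rw [Lp.norm_toLp, Lp.norm_def, mul_comm, ← ENNReal.toReal_mul]
      refine ENNReal.toReal_mono ?_ (eLpNorm_le_eLpNorm_mul_rpow_measure_univ (by norm_num)
        (Lp.aestronglyMeasurable y))
      refine ENNReal.mul_ne_top (Lp.eLpNorm_ne_top y) ?_
      exact ENNReal.rpow_ne_top_of_nonneg (by norm_num) (measure_ne_top _ _))

lemma j62_ae (μ : Measure (En d)) [IsFiniteMeasure μ] (y : Lp ℝ 6 μ) : j62 μ y =ᵐ[μ] y :=
  MemLp.coeFn_toLp ((Lp.memLp y).mono_exponent (p := 2) (by norm_num))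

/-- The set of pairs `(ψ, ∇ψ)`. -/
lemma pair_mem (Ω : Set (En d)) (ψ : TT Ω) :
    (tl Ω 2 ψ, gr Ω ψ) ∈ {P : Lp ℝ 2 (mu Ω) × Lp (En d) 2 (mu Ω) |
      ∃ ψ, Tst Ω ψ ∧ P.1 =ᵐ[mu Ω] ψ ∧ P.2 =ᵐ[mu Ω] gradient ψ} :=
  ⟨ψ.1, ψ.2, tl_ae Ω 2 ψ, gr_ae Ω ψ⟩

/-- EMB. -/
theorem emb (sob : SobStmt) : EmbStmt := by
  intro d Ω hd hΩ
  obtain ⟨C, hC, hS⟩ := sob d Ω hd hΩ
  have := mu_fin hΩ
  have hb : ∀ ψ : TT Ω, ‖tl Ω 6 ψ‖ ≤ C * ‖ge Ω ψ‖ := by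
    intro ψ
    have h1 : ‖ge Ω ψ‖ = ‖gr Ω ψ‖ := rfl
    rw [h1]
    show ‖(tst_memLp ψ.2 6).toLp ψ.1‖ ≤ C * ‖(tst_grad_memLp ψ.2 2).toLp (gradient ψ.1)‖
    rw [Lp.norm_toLp, Lp.norm_toLp]
    have h2 := hS ψ.1 ψ.2
    have h3 : C = (ENNReal.ofReal C).toReal := by rw [ENNReal.toReal_ofReal hC.le]
    rw [h3, ← ENNReal.toReal_mul]
    refine ENNReal.toReal_mono ?_ h2
    exact ENNReal.mul_ne_top ENNReal.ofReal_ne_top (tst_grad_memLp ψ.2 2).eLpNorm_ne_top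
  have hi : ∀ ψ : TT Ω, (tl Ω 6).extendOfNorm (ge Ω) (ge Ω ψ) = tl Ω 6 ψ := fun ψ =>
    LinearMap.extendOfNorm_eq (ge_dense Ω) ⟨C, hb⟩ ψ
  have hE : Emb Ω ((tl Ω 6).extendOfNorm (ge Ω)) := by
    intro ψ hψ G hG
    have h1 : G = ge Ω ⟨ψ, hψ⟩ := by
      apply Subtype.ext
      exact Lp.ext (hG.trans (gr_ae Ω ⟨ψ, hψ⟩).symm)
    rw [h1, hi]
    exact tl_ae Ω 6 ⟨ψ, hψ⟩
  obtain ⟨ι, hι⟩ : ∃ ι, ι = (tl Ω 6).extendOfNorm (ge Ω) := ⟨_, rfl⟩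
  rw [← hι] at hi hE
  refine ⟨ι, hE, ?_⟩
  have h62 : ∀ ψ : TT Ω, j62 (mu Ω) (ι (ge Ω ψ)) = tl Ω 2 ψ := by
    intro ψ
    rw [hi]
    exact Lp.ext ((j62_ae _ _).trans ((tl_ae Ω 6 ψ).trans (tl_ae Ω 2 ψ).symm))
  intro u G
  constructor
  · intro h
    have hcl : IsClosed ((fun P : Lp ℝ 2 (mu Ω) × VV Ω =>
        ((P.1, (P.2 : Lp (En d) 2 (mu Ω))) : Lp ℝ 2 (mu Ω) × Lp (En d) 2 (mu Ω))) ''
        {P | P.1 = j62 (mu Ω) (ι P.2)}) := by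
      have hVc : IsClosed ((VV Ω : Submodule ℝ _) : Set (Lp (En d) 2 (mu Ω))) :=
        Submodule.isClosed_topologicalClosure _
      have e1 : IsClosedEmbedding (fun P : Lp ℝ 2 (mu Ω) × VV Ω =>
          ((P.1, (P.2 : Lp (En d) 2 (mu Ω))) : Lp ℝ 2 (mu Ω) × Lp (En d) 2 (mu Ω))) :=
        IsClosedEmbedding.prodMap IsClosedEmbedding.id hVc.isClosedEmbedding_subtypeVal
      refine e1.isClosedMap _ ?_
      exact isClosed_eq continuous_fst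
        ((j62 (mu Ω)).continuous.comp (ι.continuous.comp continuous_snd))
    have h1 : H10 Ω ⊆ ((fun P : Lp ℝ 2 (mu Ω) × VV Ω =>
        ((P.1, (P.2 : Lp (En d) 2 (mu Ω))) : Lp ℝ 2 (mu Ω) × Lp (En d) 2 (mu Ω))) ''
        {P | P.1 = j62 (mu Ω) (ι P.2)}) := by
      refine closure_minimal ?_ hcl
      rintro ⟨v, G'⟩ ⟨ψ, hψ, hv, hG'⟩
      have a1 : v = tl Ω 2 ⟨ψ, hψ⟩ := Lp.ext (hv.trans (tl_ae Ω 2 ⟨ψ, hψ⟩).symm)
      have a2 : G' = gr Ω ⟨ψ, hψ⟩ := Lp.ext (hG'.trans (gr_ae Ω ⟨ψ, hψ⟩).symm)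
      refine ⟨(v, ge Ω ⟨ψ, hψ⟩), ?_, ?_⟩
      · show v = j62 (mu Ω) (ι (ge Ω ⟨ψ, hψ⟩))
        rw [h62, a1]
      · show (v, (gr Ω ⟨ψ, hψ⟩ : Lp (En d) 2 (mu Ω))) = (v, G')
        rw [a2]
    obtain ⟨⟨v, G'⟩, hP, hP2⟩ := h1 h
    have b1 : v = u := congrArg Prod.fst hP2
    have b2 : (G' : Lp (En d) 2 (mu Ω)) = G := congrArg Prod.snd hP2
    subst b2
    refine ⟨G'.2, ?_⟩
    rw [← b1]
    have b3 : v = j62 (mu Ω) (ι G') := hP
    rw [b3]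
    exact j62_ae _ _
  · rintro ⟨hG, hu⟩
    have h1 : u = j62 (mu Ω) (ι ⟨G, hG⟩) := Lp.ext (hu.trans (j62_ae _ _).symm)
    have hc : Continuous (fun G : VV Ω =>
        ((j62 (mu Ω) (ι G), (G : Lp (En d) 2 (mu Ω))) :
          Lp ℝ 2 (mu Ω) × Lp (En d) 2 (mu Ω))) :=
      ((j62 (mu Ω)).continuous.comp ι.continuous).prodMk continuous_subtype_val
    have h2 : (⟨G, hG⟩ : VV Ω) ∈ closure (range (ge Ω)) := ge_dense Ω _
    have h3 := image_closure_subset_closure_image hc (mem_image_of_mem _ h2)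
    rw [h1]
    refine closure_mono ?_ h3
    rintro _ ⟨_, ⟨ψ, rfl⟩, rfl⟩
    show (j62 (mu Ω) (ι (ge Ω ψ)), (gr Ω ψ : Lp (En d) 2 (mu Ω))) ∈ _
    rw [h62]
    exact pair_mem Ω ψ

end

end Pool.Agent.BE01.H91
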