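import Pool.Agent.Helper91_BE01.EMB

/-!
# Squad BE01, module LVL: the measures of the level sets
-/

namespace Pool.Agent.BE01.H91

open Set Filter Topology MeasureTheory
open scoped InnerProductSpace ENNReal

noncomputable section

variable {d : ℕ}

lemma inner_mul (x y : ℝ) : ⟪x, y⟫_ℝ = x * y := by
  rw [RCLike.inner_apply, conj_trivial, mul_comm]

/-- The derivative of the smooth transition is bounded. -/
lemma st_bd : ∃ c1 : ℝ, 0 < c1 ∧ ∀ x, deriv Real.smoothTransition x ≤ c1 := by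
  have hc : Continuous (deriv Real.smoothTransition) :=
    (Real.smoothTransition.contDiff (n := 1)).continuous_deriv (by norm_num)
  obtain ⟨c, hc⟩ := (isCompact_Icc (a := (0 : ℝ)) (b := 1)).exists_bound_of_continuousOn
    hc.continuousOn
  refine ⟨|c| + 1, by positivity, fun x => ?_⟩
  by_cases h0 : x < 0
  · have h1 : deriv Real.smoothTransition x = 0 := by
      have h2 : Real.smoothTransition =ᶠ[𝓝 x] fun _ => 0 := by
        filter_upwards [Iio_mem_nhds h0] with y hy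
        exact Real.smoothTransition.zero_of_nonpos (le_of_lt hy)
      rw [h2.deriv_eq, deriv_const]
    rw [h1]
    positivity
  by_cases h1 : 1 < x
  · have h1 : deriv Real.smoothTransition x = 0 := by
      have h2 : Real.smoothTransition =ᶠ[𝓝 x] fun _ => 1 := by
        filter_upwards [Ioi_mem_nhds h1] with y hy
        exact Real.smoothTransition.one_of_one_le (le_of_lt hy)
      rw [h2.deriv_eq, deriv_const]
    rw [h1]
    positivity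
  · push Not at h0 h1
    have := hc x ⟨h0, h1⟩
    rw [Real.norm_eq_abs] at this
    exact (le_abs_self _).trans (this.trans ((le_abs_self c).trans (by linarith)))

/-- The cut-off function. -/
def Ph (k h : ℝ) (s : ℝ) : ℝ := Real.smoothTransition ((s - k) * (h - k)⁻¹)

lemma Ph_smooth (k h : ℝ) : ContDiff ℝ ((⊤ : ℕ∞) : WithTop ℕ∞) (Ph k h) := by
  unfold Ph
  exact (Real.smoothTransition.contDiff (n := ⊤)).comp
    ((contDiff_id.sub contDiff_const).mul contDiff_const)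

lemma Ph_deriv (k h s : ℝ) :
    deriv (Ph k h) s = deriv Real.smoothTransition ((s - k) * (h - k)⁻¹) * (h - k)⁻¹ := by
  have h1 : HasDerivAt (fun s : ℝ => (s - k) * (h - k)⁻¹) (1 * (h - k)⁻¹) s :=
    ((hasDerivAt_id s).sub_const k).mul_const _
  have h2 : HasDerivAt Real.smoothTransition
      (deriv Real.smoothTransition ((s - k) * (h - k)⁻¹)) ((s - k) * (h - k)⁻¹) :=
    ((Real.smoothTransition.contDiff (n := 1)).differentiable (by norm_num)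
      ((s - k) * (h - k)⁻¹)).hasDerivAt
  have h3 := h2.comp s h1
  rw [one_mul] at h3
  exact h3.deriv

/-- The identity for all elements of `VV`. -/
lemma test_all {Ω : Set (En d)} [IsFiniteMeasure (mu Ω)] {ι : VV Ω →L[ℝ] Lp ℝ 6 (mu Ω)}
    (hι : Emb Ω ι) {f : Lp ℝ 2 (mu Ω)} {G : VV Ω}
    (h : ∀ ψ, Tst Ω ψ → ∫ x, ⟪(G : Lp (En d) 2 (mu Ω)) x, gradient ψ x⟫_ℝ ∂(mu Ω) =
      ∫ x, f x * ψ x ∂(mu Ω)) (G' : VV Ω) :
    ⟪(G : Lp (En d) 2 (mu Ω)), (G' : Lp (En d) 2 (mu Ω))⟫_ℝ = ⟪f, j62 (mu Ω) (ι G')⟫_ℝ := by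
  have hc1 : Continuous fun G' : VV Ω =>
      ⟪(G : Lp (En d) 2 (mu Ω)), (G' : Lp (En d) 2 (mu Ω))⟫_ℝ :=
    continuous_const.inner continuous_subtype_val
  have hc2 : Continuous fun G' : VV Ω => ⟪f, j62 (mu Ω) (ι G')⟫_ℝ :=
    continuous_const.inner ((j62 (mu Ω)).continuous.comp ι.continuous)
  refine (ge_dense Ω).induction_on (p := fun G' =>
    ⟪(G : Lp (En d) 2 (mu Ω)), (G' : Lp (En d) 2 (mu Ω))⟫_ℝ = ⟪f, j62 (mu Ω) (ι G')⟫_ℝ)
    G' (isClosed_eq hc1 hc2) ?_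
  intro ψ
  show ⟪(G : Lp (En d) 2 (mu Ω)), gr Ω ψ⟫_ℝ = ⟪f, j62 (mu Ω) (ι (ge Ω ψ))⟫_ℝ
  rw [L2.inner_def, L2.inner_def]
  have h1 : ∫ x, ⟪(G : Lp (En d) 2 (mu Ω)) x, gr Ω ψ x⟫_ℝ ∂(mu Ω) =
      ∫ x, ⟪(G : Lp (En d) 2 (mu Ω)) x, gradient ψ.1 x⟫_ℝ ∂(mu Ω) := by
    refine integral_congr_ae ?_
    filter_upwards [gr_ae Ω ψ] with x hx
    rw [hx]
  have h2 : ∫ x, ⟪f x, j62 (mu Ω) (ι (ge Ω ψ)) x⟫_ℝ ∂(mu Ω) = ∫ x, f x * ψ.1 x ∂(mu Ω) := by
    refine integral_congr_ae ?_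
    filter_upwards [j62_ae (mu Ω) (ι (ge Ω ψ)), hι ψ.1 ψ.2 (ge Ω ψ) (gr_ae Ω ψ)] with x hx hx'
    rw [hx, hx', inner_mul]
  rw [h1, h2, h ψ.1 ψ.2]

/-- LVL. -/
theorem lvl (chn : ChnStmt) : LvlStmt := by
  intro d Ω ι hΩ hι
  obtain ⟨c1, hc1, hst⟩ := st_bd
  have := mu_fin hΩ
  refine ⟨‖ι‖ ^ 2 * c1 + 1, by positivity, ?_⟩
  intro f G hf k h hk hkh
  have hkh' : 0 < h - k := by linarith
  have hder : ∀ s, 0 ≤ deriv (Ph k h) s ∧ deriv (Ph k h) s ≤ c1 / (h - k) := by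
    intro s
    rw [Ph_deriv, div_eq_mul_inv]
    have h1 : 0 ≤ deriv Real.smoothTransition ((s - k) * (h - k)⁻¹) :=
      Real.smoothTransition.monotone.deriv_nonneg
    exact ⟨mul_nonneg h1 (inv_nonneg.2 hkh'.le),
      mul_le_mul_of_nonneg_right (hst _) (inv_nonneg.2 hkh'.le)⟩
  obtain ⟨G', hG1, hG2⟩ := chn d Ω ι (Ph k h) (c1 / (h - k)) hΩ hι (Ph_smooth k h)
    (by
      unfold Ph
      refine Real.smoothTransition.zero_of_nonpos ?_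
      have := inv_nonneg.2 hkh'.le
      nlinarith)
    (fun s => by rw [abs_of_nonneg (hder s).1]; exact (hder s).2) G
  have hk1 := test_all hι hf G'
  -- the norm of `G'`
  have e1 : ‖G'‖ ^ 2 ≤ c1 / (h - k) * ⟪(G : Lp (En d) 2 (mu Ω)), (G' : Lp (En d) 2 (mu Ω))⟫_ℝ := by
    have a1 : ‖G'‖ ^ 2 = ⟪(G' : Lp (En d) 2 (mu Ω)), (G' : Lp (En d) 2 (mu Ω))⟫_ℝ := by
      rw [real_inner_self_eq_norm_sq]
      rfl
    rw [a1, L2.inner_def, L2.inner_def, ← integral_const_mul]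
    refine integral_mono_ae (L2.integrable_inner (𝕜 := ℝ) _ _)
      ((L2.integrable_inner (𝕜 := ℝ) _ _).const_mul _) ?_
    filter_upwards [hG2] with x hx
    show ⟪(G' : Lp (En d) 2 (mu Ω)) x, (G' : Lp (En d) 2 (mu Ω)) x⟫_ℝ ≤
      c1 / (h - k) * ⟪(G : Lp (En d) 2 (mu Ω)) x, (G' : Lp (En d) 2 (mu Ω)) x⟫_ℝ
    rw [hx, real_inner_smul_left, real_inner_smul_right]
    have b1 : 0 ≤ ⟪(G : Lp (En d) 2 (mu Ω)) x, (G : Lp (En d) 2 (mu Ω)) x⟫_ℝ :=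
      real_inner_self_nonneg
    obtain ⟨b2, b3⟩ := hder (ι G x)
    have b4 : 0 ≤ deriv (Ph k h) (ι G x) *
        ⟪(G : Lp (En d) 2 (mu Ω)) x, (G : Lp (En d) 2 (mu Ω)) x⟫_ℝ := mul_nonneg b2 b1
    exact mul_le_mul_of_nonneg_right b3 b4
  -- the function `Φ(u)`
  have hm : ∀ t : ℝ, MeasurableSet {x | t < ι G x} := fun t =>
    measurableSet_lt measurable_const (Lp.stronglyMeasurable (ι G)).measurable
  have e2 : ‖j62 (mu Ω) (ι G')‖ ^ 2 ≤ (mu Ω).real {x | k < ι G x} := by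
    have a1 : ‖j62 (mu Ω) (ι G')‖ ^ 2 = ⟪j62 (mu Ω) (ι G'), j62 (mu Ω) (ι G')⟫_ℝ := by
      rw [real_inner_self_eq_norm_sq]
    have a2 : (mu Ω).real {x | k < ι G x} =
        ∫ x, {x | k < ι G x}.indicator (fun _ => (1 : ℝ)) x ∂(mu Ω) := by
      rw [integral_indicator (hm k), setIntegral_const, smul_eq_mul, mul_one]
    rw [a1, a2, L2.inner_def]
    refine integral_mono_ae (L2.integrable_inner (𝕜 := ℝ) _ _)
      ((integrable_const (1 : ℝ)).indicator (hm k)) ?_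
    filter_upwards [hG1, j62_ae (mu Ω) (ι G')] with x hx hx'
    show ⟪j62 (mu Ω) (ι G') x, j62 (mu Ω) (ι G') x⟫_ℝ ≤
      {x | k < ι G x}.indicator (fun _ => (1 : ℝ)) x
    rw [hx', hx, inner_mul]
    by_cases hx1 : k < ι G x
    · have h1 : x ∈ {x | k < ι G x} := hx1
      rw [indicator_of_mem h1]
      have h2 := Real.smoothTransition.le_one ((ι G x - k) * (h - k)⁻¹)
      have h3 := Real.smoothTransition.nonneg ((ι G x - k) * (h - k)⁻¹)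
      show Real.smoothTransition ((ι G x - k) * (h - k)⁻¹) *
        Real.smoothTransition ((ι G x - k) * (h - k)⁻¹) ≤ 1
      nlinarith
    · have h1 : x ∉ {x | k < ι G x} := hx1
      rw [indicator_of_notMem h1]
      have h2 : Ph k h (ι G x) = 0 := by
        unfold Ph
        refine Real.smoothTransition.zero_of_nonpos ?_
        have := inv_nonneg.2 hkh'.le
        push Not at hx1
        nlinarith
      rw [h2, mul_zero]
  have e3 : (mu Ω).real {x | h < ι G x} ≤ ‖ι G'‖ ^ 6 := by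
    have a1 := Lp.mul_meas_ge_le_pow_enorm' (ι G') (by norm_num) (by norm_num) 1
    have a2 : (mu Ω) {x | h < ι G x} ≤ (mu Ω) {x | (1 : ℝ≥0∞) ≤ ‖ι G' x‖₊} := by
      refine measure_mono_ae ?_
      filter_upwards [hG1] with x hx hx1
      show (1 : ℝ≥0∞) ≤ ‖ι G' x‖₊
      have hx2 : h < ι G x := hx1
      have h2 : Ph k h (ι G x) = 1 := by
        unfold Ph
        refine Real.smoothTransition.one_of_one_le ?_
        rw [← div_eq_mul_inv, le_div_iff₀ hkh']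
        linarith
      rw [hx, h2]
      simp
    have a3 : (mu Ω) {x | h < ι G x} ≤ ENNReal.ofReal ‖ι G'‖ ^ (6 : ℝ≥0∞).toReal := by
      refine a2.trans ?_
      rw [ENNReal.one_rpow, one_mul] at a1
      exact a1
    have a4 : ENNReal.ofReal ‖ι G'‖ ^ (6 : ℝ≥0∞).toReal = ENNReal.ofReal (‖ι G'‖ ^ 6) := by
      rw [ENNReal.ofReal_pow (norm_nonneg _)]
      have : (6 : ℝ≥0∞).toReal = ((6 : ℕ) : ℝ) := by norm_num
      rw [this, ENNReal.rpow_natCast]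
    rw [a4] at a3
    exact ENNReal.toReal_le_of_le_ofReal (by positivity) a3
  -- conclusion
  obtain ⟨a, ha⟩ : ∃ a : ℝ, a = (mu Ω).real {x | k < ι G x} := ⟨_, rfl⟩
  have ha0 : 0 ≤ a := by rw [ha]; exact measureReal_nonneg
  rw [← ha] at e2 ⊢
  have e4 : ‖j62 (mu Ω) (ι G')‖ ≤ a ^ (1 / 2 : ℝ) := by
    rw [← Real.sqrt_eq_rpow]
    exact Real.le_sqrt_of_sq_le e2
  have e5 : ‖G'‖ ^ 2 ≤ c1 / (h - k) * (‖f‖ * a ^ (1 / 2 : ℝ)) := by
    refine e1.trans (mul_le_mul_of_nonneg_left ?_ (by positivity))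
    rw [hk1]
    exact (real_inner_le_norm _ _).trans (mul_le_mul_of_nonneg_left e4 (norm_nonneg _))
  have e6 : ‖ι G'‖ ^ 2 ≤ (‖ι‖ ^ 2 * c1 + 1) * ‖f‖ / (h - k) * a ^ (1 / 2 : ℝ) := by
    have b1 : ‖ι G'‖ ≤ ‖ι‖ * ‖G'‖ := ι.le_opNorm _
    have b2 : ‖ι G'‖ ^ 2 ≤ (‖ι‖ * ‖G'‖) ^ 2 := pow_le_pow_left₀ (norm_nonneg _) b1 2
    rw [mul_pow] at b2
    have b3 : ‖ι‖ ^ 2 * ‖G'‖ ^ 2 ≤ ‖ι‖ ^ 2 * (c1 / (h - k) * (‖f‖ * a ^ (1 / 2 : ℝ))) :=
      mul_le_mul_of_nonneg_left e5 (by positivity)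
    have b4 : (‖ι‖ ^ 2 * c1 + 1) * ‖f‖ / (h - k) * a ^ (1 / 2 : ℝ) =
        ‖ι‖ ^ 2 * (c1 / (h - k) * (‖f‖ * a ^ (1 / 2 : ℝ))) + ‖f‖ / (h - k) * a ^ (1 / 2 : ℝ) := by
      ring
    have b5 : 0 ≤ ‖f‖ / (h - k) * a ^ (1 / 2 : ℝ) := by positivity
    rw [b4]
    linarith
  calc (mu Ω).real {x | h < ι G x} ≤ ‖ι G'‖ ^ 6 := e3
    _ = (‖ι G'‖ ^ 2) ^ 3 := by ring
    _ ≤ ((‖ι‖ ^ 2 * c1 + 1) * ‖f‖ / (h - k) * a ^ (1 / 2 : ℝ)) ^ 3 :=
      pow_le_pow_left₀ (by positivity) e6 3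
    _ = ((‖ι‖ ^ 2 * c1 + 1) * ‖f‖ / (h - k)) ^ 3 * a ^ (3 / 2 : ℝ) := by
      rw [mul_pow, ← Real.rpow_natCast (a ^ (1 / 2 : ℝ)), ← Real.rpow_mul ha0]
      norm_num

end

end Pool.Agent.BE01.H91
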